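import Pool.Agent.NA.Stmts

/-!
# NA BLK: a block from its coordinates
-/

set_option autoImplicit false

open Finset Filter Topology MeasureTheory

noncomputable section

namespace Pool.Agent.NA.H83

open Pool.Agent.BC

theorem blk (hH : HaaStmt) (_ : LncStmt) : BlkStmt := by
  classical
  intro X _ _ z K k D C c P hc hP hD hyp
  obtain ⟨h, hA, hB, hQ⟩ := hH k
  let z' : ℕ → X := fun i => if i < K then z i else ∑ l ∈ range (2 ^ k), h (i - K) l • D l
  have hz1 : ∀ i < K, z' i = z i := fun i hi => if_pos hi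
  have hz2 : ∀ j, z' (K + j) = ∑ l ∈ range (2 ^ k), h j l • D l := by
    intro j
    simp only [z']
    rw [if_neg (by omega), Nat.add_sub_cancel_left]
  have hS : ∀ (a : ℕ → ℝ) (i : ℕ), S z' a (K + i) = S z a K +
      ∑ l ∈ range (2 ^ k), (∑ j ∈ range i, a (K + j) * h j l) • D l := by
    intro a i
    unfold S
    rw [Finset.sum_range_add]
    congr 1
    · refine Finset.sum_congr rfl fun x hx => ?_
      rw [hz1 x (Finset.mem_range.1 hx)]
    · simp_rw [hz2, Finset.smul_sum, Finset.sum_smul, smul_smul]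
      rw [Finset.sum_comm]
  have hα : ∀ (a : ℕ → ℝ), ∑ l ∈ range (2 ^ k),
      (∑ j ∈ range (2 ^ k - 1), a (K + j) * h j l) = 0 := by
    intro a
    rw [Finset.sum_comm]
    refine Finset.sum_eq_zero fun j hj => ?_
    rw [← Finset.mul_sum, (hB j (Finset.mem_range.1 hj)).1, mul_zero]
  have hS0 : ∀ a : ℕ → ℝ, S z' a K = S z a K := by
    intro a
    have := hS a 0
    simpa using this
  refine ⟨z', hz1, ⟨by omega, hP, ?_, ?_, ?_⟩, ?_⟩
  · intro j' h1 h2 h3
    obtain ⟨j, rfl⟩ := Nat.exists_eq_add_of_le h1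
    have hj : j < 2 ^ k - 1 := by omega
    obtain ⟨hB1, l, hl, hl0⟩ := hB j hj
    have h4 := (hyp (fun _ => 0) (h j) hB1).2.1
    rw [← hz2, h3] at h4
    have h5 : 0 < ∑ l ∈ range (2 ^ k), |h j l| :=
      Finset.sum_pos' (fun _ _ => abs_nonneg _) ⟨l, Finset.mem_range.2 hl, abs_pos.2 hl0⟩
    have h6 : S z (fun _ => (0 : ℝ)) K = 0 := by
      unfold S
      simp
    rw [h6, add_zero, norm_zero] at h4
    have := mul_pos hc h5
    linarith
  · intro a
    rw [hS0, hS a]
    exact (hyp a _ (hα a)).1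
  · intro a i' h1 h2
    obtain ⟨i, rfl⟩ := Nat.exists_eq_add_of_le h1
    have hi : i ≤ 2 ^ k - 1 := by omega
    have h3 := (hyp a _ (hα a)).2.2 i hi
    rw [hS a, hS a]
    have h4 : ∑ l ∈ range (2 ^ k), (∑ j ∈ range i, a (K + j) * h j l) • D l =
        ∑ l ∈ range (2 ^ k), Qv k i (fun l => ∑ j ∈ range (2 ^ k - 1), a (K + j) * h j l) l •
          D l := by
      refine Finset.sum_congr rfl fun l hl => ?_
      rw [hQ (fun j => a (K + j)) i hi l (Finset.mem_range.1 hl)]
    rw [h4]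
    exact h3
  · intro l hl
    have h1 : ∑ l' ∈ range (2 ^ k), ((if l' = l then (1 : ℝ) else 0) - ((2 : ℝ) ^ k)⁻¹) = 0 := by
      rw [Finset.sum_sub_distrib, Finset.sum_ite_eq' (range (2 ^ k)) l, if_pos
        (Finset.mem_range.2 hl)]
      simp
    obtain ⟨β, hβ⟩ := hA _ h1
    have h2 : D l = ∑ j ∈ range (2 ^ k - 1), β j • z' (K + j) := by
      have h3 : ∑ l' ∈ range (2 ^ k), ((if l' = l then (1 : ℝ) else 0) - ((2 : ℝ) ^ k)⁻¹) • D l' =
          D l := by
        simp_rw [sub_smul, ite_smul, one_smul, zero_smul]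
        rw [Finset.sum_sub_distrib, Finset.sum_ite_eq' (range (2 ^ k)) l, if_pos
          (Finset.mem_range.2 hl), ← Finset.smul_sum, hD, smul_zero, sub_zero]
      rw [← h3]
      have h4 : ∑ l' ∈ range (2 ^ k), ((if l' = l then (1 : ℝ) else 0) - ((2 : ℝ) ^ k)⁻¹) •
          D l' = ∑ l' ∈ range (2 ^ k), (∑ j ∈ range (2 ^ k - 1), β j * h j l') • D l' :=
        Finset.sum_congr rfl fun l' hl' => by rw [hβ l' (Finset.mem_range.1 hl')]
      rw [h4]
      simp_rw [hz2, Finset.smul_sum, Finset.sum_smul, smul_smul]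
      rw [Finset.sum_comm]
    rw [h2]
    refine Submodule.sum_mem _ fun j hj => Submodule.smul_mem _ _ (Submodule.subset_span
      ⟨K + j, ?_, rfl⟩)
    have := Finset.mem_range.1 hj
    simp only [Set.mem_Iio]
    omega

end Pool.Agent.NA.H83
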