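import Pool.Agent.NA.Stmts

/-!
# NA FAM: the families of a sweep exist
-/

set_option autoImplicit false

open Finset Filter Topology MeasureTheory

noncomputable section

namespace Pool.Agent.NA.H83

open Pool.Agent.BC

theorem fam (hN : NrmStmt) (hC : CvxStmt) : FamStmt := by
  classical
  intro X _ _ NN δ h0 u hu E hE n ζ ρ hζ hρ
  have step : ∀ st : {p : Submodule ℝ X × Finset (X →L[ℝ] ℝ) // FiniteDimensional ℝ p.1},
      ∃ (b : ℕ) (f : Fin b → X →L[ℝ] ℝ) (s : ℕ) (v : ℕ → X)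
        (st' : {p : Submodule ℝ X × Finset (X →L[ℝ] ℝ) // FiniteDimensional ℝ p.1}),
        Nor st.1.1 f ζ ∧ (∀ j < 2 ^ s, v j ∈ NN ∧ δ ≤ ‖v j - u‖ ∧ v j - u ∈ st'.1.1) ∧
        (∀ g ∈ st'.1.2, ∀ j < 2 ^ s, |g (v j - u)| ≤ ζ) ∧ (∀ i, f i ∈ st'.1.2) ∧
        st.1.2 ⊆ st'.1.2 ∧ st.1.1 ≤ st'.1.1 ∧
        ‖((2 : ℝ) ^ s)⁻¹ • ∑ j ∈ range (2 ^ s), v j - u‖ ≤ ρ := by
    rintro ⟨⟨E', F⟩, hE'⟩
    have hE2 : FiniteDimensional ℝ E' := hE'
    obtain ⟨b, f, hf⟩ := hN X E' hE2 ζ hζ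
    obtain ⟨s, v, hv, hm⟩ := hC X NN δ h0 u hu (↥(F ∪ Finset.univ.image f)) (fun g => g.1)
      ζ ρ hζ hρ
    refine ⟨b, f, s, v, ⟨(E' ⊔ Submodule.span ℝ ((fun j => v j - u) '' (Set.Iio (2 ^ s))),
      F ∪ Finset.univ.image f), ?_⟩, hf, ?_, ?_, ?_, ?_, ?_, hm⟩
    · have h1 : Set.Finite ((fun j => v j - u) '' (Set.Iio (2 ^ s))) :=
        (Set.finite_Iio _).image _
      have := FiniteDimensional.span_of_finite ℝ h1
      exact Submodule.finiteDimensional_sup E' _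
    · intro j hj
      exact ⟨(hv j hj).1, (hv j hj).2.1, Submodule.mem_sup_right
        (Submodule.subset_span ⟨j, hj, rfl⟩)⟩
    · intro g hg j hj
      exact (hv j hj).2.2 ⟨g, hg⟩
    · intro i
      exact Finset.mem_union_right _ (Finset.mem_image_of_mem f (Finset.mem_univ i))
    · exact Finset.subset_union_left
    · exact le_sup_left
  choose b f s v st' h1 h2 h3 h4 h5 h6 h7 using step
  let x0 : {p : Submodule ℝ X × Finset (X →L[ℝ] ℝ) // FiniteDimensional ℝ p.1} :=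
    ⟨(E, ∅), hE⟩
  have hs : ∀ m, (st'^[m + 1]) x0 = st' ((st'^[m]) x0) := fun m =>
    Function.iterate_succ_apply' st' m x0
  have hmF : Monotone fun m => ((st'^[m]) x0).1.2 := by
    refine monotone_nat_of_le_succ fun m => ?_
    rw [hs]
    exact h5 _
  have hmE : Monotone fun m => ((st'^[m]) x0).1.1 := by
    refine monotone_nat_of_le_succ fun m => ?_
    rw [hs]
    exact h6 _
  refine ⟨fun m => s ((st'^[m]) x0), fun m => v ((st'^[m]) x0), fun m => ((st'^[m]) x0).1.1,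
    fun m => b ((st'^[m]) x0), fun m => f ((st'^[m]) x0), rfl, hmE, ?_, ?_, ?_, ?_⟩
  · intro m _ j hj
    refine ⟨(h2 _ j hj).1, (h2 _ j hj).2.1, ?_⟩
    show v ((st'^[m]) x0) j - u ∈ ((st'^[m + 1]) x0).1.1
    rw [hs]
    exact (h2 _ j hj).2.2
  · intro m _
    exact h1 _
  · intro m _ i q hmq _ j hj
    refine h3 ((st'^[q]) x0) _ ?_ j hj
    have ha : f ((st'^[m]) x0) i ∈ ((st'^[m + 1]) x0).1.2 := by
      rw [hs]
      exact h4 _ i
    have hb := hmF (show m + 1 ≤ q + 1 by omega) ha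
    rw [← hs]
    exact hb
  · intro m _
    exact h7 _

end Pool.Agent.NA.H83
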